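import Pool.Agent.Y314.CT3.Prim1

/-!
# PRIM: a maximal abelian normal subgroup generating a field
-/

set_option autoImplicit false

namespace Pool.Agent.Y314.CT3

open Pool.Agent.Y552.CT

universe u v

theorem exists_field {Γ : Type u} [Group Γ] {W : Type v} [AddCommGroup W] [Finite W] [Nontrivial W]
    (ρ : Γ →* AddMonoid.End W) (B : Subgroup Γ) (hBn : B.Normal) (hBc : Comm B)
    (hdom : ∀ x ∈ Rg ρ B, ∀ y ∈ Rg ρ B, x * y = 0 → x = 0 ∨ y = 0) :
    ∃ (F : Type v) (_ : Field F) (_ : Finite F) (j : F →+* AddMonoid.End W),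
      (∀ b ∈ B, ∃ f, j f = ρ b) ∧
      (∀ X : AddMonoid.End W, (∀ b ∈ B, X * ρ b = ρ b * X) → ∀ f, X * j f = j f * X) ∧
      (∀ g f, ∃ f', ρ g * j f * ρ g⁻¹ = j f') := by
  classical
  have hcomm : ∀ X : AddMonoid.End W, (∀ b ∈ B, X * ρ b = ρ b * X) → ∀ y ∈ Rg ρ B,
      X * y = y * X := by
    intro X hX y hy
    unfold Rg at hy
    induction hy using Subring.closure_induction with
    | mem x hx =>
      obtain ⟨b, hb, rfl⟩ := hx
      exact hX b hb
    | zero => rw [mul_zero, zero_mul]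
    | one => rw [mul_one, one_mul]
    | add x y _ _ hx hy => rw [mul_add, add_mul, hx, hy]
    | neg x _ hx => rw [mul_neg, neg_mul, hx]
    | mul x y _ _ hx hy => rw [← mul_assoc, hx, mul_assoc, hy, mul_assoc]
  have hc2 : ∀ x ∈ Rg ρ B, ∀ y ∈ Rg ρ B, x * y = y * x := by
    intro x hx
    refine hcomm x ?_
    intro b hb
    exact (hcomm (ρ b) (fun b' hb' => by rw [← map_mul, ← map_mul, hBc b hb b' hb']) x hx).symm
  have hgg : ∀ g : Γ, ρ g⁻¹ * ρ g = 1 := fun g => by rw [← map_mul, inv_mul_cancel, map_one]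
  have hgg' : ∀ g : Γ, ρ g * ρ g⁻¹ = 1 := fun g => by rw [← map_mul, mul_inv_cancel, map_one]
  have hconj : ∀ g : Γ, ∀ y ∈ Rg ρ B, ρ g * y * ρ g⁻¹ ∈ Rg ρ B := by
    intro g y hy
    unfold Rg at hy ⊢
    induction hy using Subring.closure_induction with
    | mem x hx =>
      obtain ⟨b, hb, rfl⟩ := hx
      refine Subring.subset_closure ⟨g * b * g⁻¹, hBn.conj_mem b hb g, ?_⟩
      rw [map_mul, map_mul]
    | zero => rw [mul_zero, zero_mul]; exact Subring.zero_mem _
    | one => rw [mul_one, hgg']; exact Subring.one_mem _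
    | add x y _ _ hx hy => rw [mul_add, add_mul]; exact Subring.add_mem _ hx hy
    | neg x _ hx => rw [mul_neg, neg_mul]; exact Subring.neg_mem _ hx
    | mul x y _ _ hx hy =>
      have h1 : ρ g * (x * y) * ρ g⁻¹ = (ρ g * x * ρ g⁻¹) * (ρ g * y * ρ g⁻¹) := by
        calc ρ g * (x * y) * ρ g⁻¹ = ρ g * x * 1 * y * ρ g⁻¹ := by
              rw [mul_one]; simp only [mul_assoc]
          _ = _ := by rw [← hgg g]; simp only [mul_assoc]
      rw [h1]
      exact Subring.mul_mem _ hx hy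
  haveI hfE : Finite (AddMonoid.End W) :=
    Finite.of_injective (fun f : AddMonoid.End W => (f : W → W)) DFunLike.coe_injective
  have h01 : (0 : AddMonoid.End W) ≠ 1 := by
    intro h
    obtain ⟨w, hw⟩ := exists_ne (0 : W)
    have := DFunLike.congr_fun h w
    exact hw this.symm
  have hF : IsField (Rg ρ B) :=
    { exists_pair_ne := ⟨0, 1, fun h => h01 (congrArg Subtype.val h)⟩
      mul_comm := fun x y => Subtype.ext (hc2 x x.2 y y.2)
      mul_inv_cancel := by
        intro a ha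
        have hinj : Function.Injective (fun x : Rg ρ B => a * x) := by
          intro x y hxy
          have h1 : a * (x - y) = 0 := by
            rw [mul_sub, sub_eq_zero]
            exact hxy
          have h2 := hdom a a.2 (x - y : Rg ρ B) (x - y : Rg ρ B).2 (congrArg Subtype.val h1)
          rcases h2 with h2 | h2
          · exact absurd (Subtype.ext h2) ha
          · exact sub_eq_zero.1 (Subtype.ext h2)
        exact (Finite.injective_iff_surjective.1 hinj) 1 }
  refine ⟨Rg ρ B, hF.toField, inferInstance,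
    { toFun := Subtype.val, map_one' := rfl, map_mul' := fun _ _ => rfl, map_zero' := rfl,
      map_add' := fun _ _ => rfl }, ?_, ?_, ?_⟩
  · intro b hb
    exact ⟨⟨ρ b, Subring.subset_closure ⟨b, hb, rfl⟩⟩, rfl⟩
  · intro X hX f
    exact hcomm X hX f.1 f.2
  · intro g f
    exact ⟨⟨_, hconj g f.1 f.2⟩, rfl⟩

theorem num_a : ∀ k : ℕ, ((k + 1) ^ 2 + 1) ^ 2 ≤ 49 * 2 ^ k := by
  intro k
  by_cases hk : k < 6
  · interval_cases k <;> norm_num
  · push Not at hk
    induction k, hk using Nat.le_induction with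
    | base => norm_num
    | succ k hk ih =>
      have h1 : ((k + 1 + 1) ^ 2 + 1) ^ 2 ≤ 2 * ((k + 1) ^ 2 + 1) ^ 2 := by
        obtain ⟨m, rfl⟩ := Nat.exists_eq_add_of_le hk
        nlinarith [sq_nonneg (m ^ 2 : ℤ), Nat.zero_le m, Nat.zero_le (m ^ 2), Nat.zero_le (m ^ 3),
          Nat.zero_le (m ^ 4)]
      calc ((k + 1 + 1) ^ 2 + 1) ^ 2 ≤ 2 * ((k + 1) ^ 2 + 1) ^ 2 := h1
        _ ≤ 2 * (49 * 2 ^ k) := Nat.mul_le_mul_left 2 ih
        _ = 49 * 2 ^ (k + 1) := by ring

theorem num_b (q e f n : ℕ) (hq : 2 ≤ q) (he : 1 ≤ e) (hf : f ≤ e * e) (hn : 2 ^ n ≤ f) :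
    q * (q * (f * q) ^ n) ≤ (q ^ e) ^ 7 := by
  have hf0 : f ≠ 0 := by
    rintro rfl
    have := Nat.two_pow_pos n
    omega
  obtain ⟨k, hk⟩ : ∃ k, k = Nat.log 2 f := ⟨_, rfl⟩
  have hnk : n ≤ k := by
    rw [hk]
    exact Nat.le_log_of_pow_le (by norm_num) hn
  have hfk : f < 2 ^ (k + 1) := by
    rw [hk]
    exact Nat.lt_pow_succ_log_self (by norm_num) f
  have hkf : 2 ^ k ≤ f := by
    rw [hk]
    exact Nat.pow_log_le_self 2 hf0
  have h1 : (k + 1) ^ 2 + 1 ≤ 7 * e := by
    have h2 : ((k + 1) ^ 2 + 1) ^ 2 ≤ (7 * e) ^ 2 := by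
      have := num_a k
      have h3 : 49 * 2 ^ k ≤ 49 * (e * e) := Nat.mul_le_mul_left 49 (hkf.trans hf)
      calc ((k + 1) ^ 2 + 1) ^ 2 ≤ 49 * 2 ^ k := this
        _ ≤ 49 * (e * e) := h3
        _ = (7 * e) ^ 2 := by ring
    exact (Nat.pow_le_pow_iff_left (by norm_num)).1 h2
  have h4 : f * q ≤ q ^ (k + 2) := by
    have : f ≤ q ^ (k + 1) := hfk.le.trans (Nat.pow_le_pow_left hq _)
    calc f * q ≤ q ^ (k + 1) * q := Nat.mul_le_mul_right _ this
      _ = q ^ (k + 2) := by rw [← pow_succ]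
  have h5 : (f * q) ^ n ≤ q ^ ((k + 2) * k) := by
    calc (f * q) ^ n ≤ (q ^ (k + 2)) ^ n := Nat.pow_le_pow_left h4 n
      _ ≤ (q ^ (k + 2)) ^ k := Nat.pow_le_pow_right (by positivity) hnk
      _ = _ := by rw [← pow_mul]
  calc q * (q * (f * q) ^ n) ≤ q * (q * q ^ ((k + 2) * k)) :=
        Nat.mul_le_mul_left _ (Nat.mul_le_mul_left _ h5)
    _ = q ^ ((k + 1) ^ 2 + 1) := by rw [← pow_succ', ← pow_succ']; congr 1; ring
    _ ≤ q ^ (7 * e) := Nat.pow_le_pow_right (by omega) h1
    _ = (q ^ e) ^ 7 := by rw [← pow_mul, mul_comm]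

theorem prim : S_PRIM.{u, v} := by
  intro Γ _ _ _ W _ _ _ ρ hρ B hBn hBc hmax hdom
  classical
  obtain ⟨F, _, _, j, hj1, hj2, hj3⟩ := exists_field ρ B hBn hBc hdom
  letI : Module F W := Module.compHom W j
  have hsmul : ∀ (f : F) (w : W), f • w = j f w := fun _ _ => rfl
  haveI : Nontrivial (AddMonoid.End W) := by
    obtain ⟨w, hw⟩ := exists_ne (0 : W)
    exact ⟨0, 1, fun h => hw (DFunLike.congr_fun h w).symm⟩
  have hjinj : Function.Injective j := j.injective
  haveI : Module.Finite F W := Module.Finite.of_finite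
  have hgg : ∀ (g : Γ) (w : W), ρ g⁻¹ (ρ g w) = w := by
    intro g w
    have : (ρ g⁻¹ * ρ g) w = w := by rw [← map_mul, inv_mul_cancel, map_one]; rfl
    exact this
  obtain ⟨q, hq⟩ : ∃ q, q = Nat.card F := ⟨_, rfl⟩
  have hq2 : 2 ≤ q := by rw [hq]; exact Finite.one_lt_card
  obtain ⟨e, he⟩ : ∃ e, e = Module.finrank F W := ⟨_, rfl⟩
  have he1 : 1 ≤ e := by rw [he]; exact Module.finrank_pos
  have hW : Nat.card W = q ^ e := by rw [hq, he]; exact Module.natCard_eq_pow_finrank
  -- the field generator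
  obtain ⟨g0, hg0⟩ := IsCyclic.exists_generator (α := Fˣ)
  have hcg0 : ∀ X : AddMonoid.End W, X * j g0 = j g0 * X → ∀ f : F, X * j f = j f * X := by
    intro X hX f
    by_cases hf : f = 0
    · rw [hf, map_zero, mul_zero, zero_mul]
    · obtain ⟨m, hm⟩ := (Submonoid.mem_powers_iff _ _).1
        ((mem_powers_iff_mem_zpowers).2 (hg0 (Units.mk0 f hf)))
      have h1 : f = (g0 : F) ^ m := by
        have := congrArg Units.val hm
        rw [Units.val_pow_eq_pow_val] at this
        exact this.symm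
      rw [h1, map_pow]
      exact (Commute.pow_right (show Commute X (j g0) from hX) m).eq
  choose φ hφ using fun g : Γ => hj3 g (g0 : F)
  have hφ2 : ∀ g h : Γ, φ g = φ h → ∀ b ∈ B, g⁻¹ * h * b = b * (g⁻¹ * h) := by
    intro g h hgh b hb
    have h1 : ρ g * j g0 * ρ g⁻¹ = ρ h * j g0 * ρ h⁻¹ := by rw [hφ, hφ, hgh]
    have e1 : ρ g⁻¹ * ρ g = 1 := by rw [← map_mul, inv_mul_cancel, map_one]
    have e2 : ρ h⁻¹ * ρ h = 1 := by rw [← map_mul, inv_mul_cancel, map_one]
    have h2 : ρ (g⁻¹ * h) * j g0 = j g0 * ρ (g⁻¹ * h) := by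
      calc ρ (g⁻¹ * h) * j g0 = ρ g⁻¹ * (ρ h * j g0 * ρ h⁻¹) * ρ h := by
            rw [map_mul, mul_assoc (ρ g⁻¹) _ (ρ h), mul_assoc (ρ h * j g0), e2, mul_one, mul_assoc]
        _ = ρ g⁻¹ * (ρ g * j g0 * ρ g⁻¹) * ρ h := by rw [h1]
        _ = (ρ g⁻¹ * ρ g) * j g0 * (ρ g⁻¹ * ρ h) := by simp only [mul_assoc]
        _ = _ := by rw [e1, one_mul, map_mul]
    obtain ⟨f, hf⟩ := hj1 b hb
    have h3 := hcg0 _ h2 f
    rw [hf, ← map_mul, ← map_mul] at h3
    exact hρ h3
  obtain ⟨C, hC⟩ : ∃ C : Subgroup Γ, C = Subgroup.centralizer (B : Set Γ) := ⟨_, rfl⟩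
  have hCmem : ∀ c, c ∈ C ↔ ∀ b ∈ B, c * b = b * c := by
    intro c
    rw [hC, Subgroup.mem_centralizer_iff]
    exact ⟨fun h b hb => (h b hb).symm, fun h b hb => (h b hb).symm⟩
  -- the index of C
  have hcardC : Nat.card Γ ≤ q * Nat.card C := by
    let s : F → Γ := fun x => if h : ∃ g, φ g = x then h.choose else 1
    have hs : ∀ g, φ (s (φ g)) = φ g := by
      intro g
      have h1 : ∃ g', φ g' = φ g := ⟨g, rfl⟩
      have h2 : s (φ g) = h1.choose := dif_pos h1
      rw [h2]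
      exact h1.choose_spec
    let G : Γ → F × C := fun g => (φ g, ⟨(s (φ g))⁻¹ * g, (hCmem _).2 (hφ2 _ _ (hs g))⟩)
    have hG : Function.Injective G := by
      intro a b hab
      have h1 := congrArg Prod.fst hab
      have h2 := congrArg (fun p => (p.2 : Γ)) hab
      simp only [G] at h1 h2
      rw [h1] at h2
      exact mul_left_cancel h2
    have := Nat.card_le_card_of_injective G hG
    rwa [Nat.card_prod, ← hq] at this
  -- the cardinality of B
  have hcardB : Nat.card B ≤ q := by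
    choose b' hb' using fun b : B => hj1 b b.2
    rw [hq]
    refine Nat.card_le_card_of_injective b' ?_
    intro x y hxy
    have : ρ x = ρ y := by rw [← hb', ← hb', hxy]
    exact Subtype.ext (hρ this)
  -- the subgroup A
  obtain ⟨A, hAn, hBA, hAB, hAA, hAZ⟩ := exists_A B hBn hBc hmax
  -- linear maps
  let L : (g : Γ) → (∀ b ∈ B, g * b = b * g) → Module.End F W := fun g hg =>
    { toFun := fun w => ρ g w
      map_add' := fun x y => map_add _ _ _
      map_smul' := fun f w => by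
        have h1 := hj2 (ρ g) (fun b hb => by rw [← map_mul, ← map_mul, hg b hb]) f
        exact DFunLike.congr_fun h1 w }
  have hL : ∀ g hg w, L g hg w = ρ g w := fun _ _ _ => rfl
  have hmulρ : ∀ g h w, ρ (g * h) w = ρ g (ρ h w) := by
    intro g h w
    rw [map_mul]
    rfl
  choose bb hbb using hj1
  obtain ⟨f, hf⟩ : ∃ f, f = Nat.card (A ⧸ B.subgroupOf A) := ⟨_, rfl⟩
  have hfe : f ≤ e * e := by
    have hAinv : ∀ a : A, ∀ b ∈ B, (a : Γ)⁻¹ * b = b * (a : Γ)⁻¹ := fun a b hb =>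
      hAB _ (A.inv_mem a.2) b hb
    have hind : LinearIndependent F (fun i : A ⧸ B.subgroupOf A =>
        L (i.out : A) (hAB _ (i.out : A).2)) := by
      refine indep_eig (α := A)
        (fun a => (LinearMap.mulLeft F (L a (hAB _ a.2))) ∘ₗ
          (LinearMap.mulRight F (L (a : Γ)⁻¹ (hAinv a)))) _
        (fun a i => bb _ (hAA a a.2 (i.out : A) (i.out : A).2)) ?_ ?_ ?_
      · intro a i
        refine LinearMap.ext fun w => ?_
        have h1 := hbb _ (hAA a a.2 (i.out : A) (i.out : A).2)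
        have h2 : (bb _ (hAA a a.2 (i.out : A) (i.out : A).2) •
            L (i.out : A) (hAB _ (i.out : A).2)) w =
            ρ ((a : Γ) * (i.out : A) * (a : Γ)⁻¹ * ((i.out : A) : Γ)⁻¹) (ρ (i.out : A) w) := by
          rw [LinearMap.smul_apply, hsmul, h1, hL _ (hAB _ (i.out : A).2)]
        rw [h2]
        change ρ a (ρ (i.out : A) (ρ (a : Γ)⁻¹ w)) = _
        rw [← hmulρ, ← hmulρ, ← hmulρ]
        congr 2
        group
      · intro i h0
        obtain ⟨w, hw⟩ := exists_ne (0 : W)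
        have h1 := LinearMap.congr_fun h0 w
        rw [hL _ (hAB _ (i.out : A).2), LinearMap.zero_apply] at h1
        apply hw
        rw [← hgg (i.out : A) w, h1, map_zero]
      · intro i k hik
        have h1 : ∀ a : A, (a : Γ) * (i.out : A) * (a : Γ)⁻¹ * ((i.out : A) : Γ)⁻¹ =
            (a : Γ) * (k.out : A) * (a : Γ)⁻¹ * ((k.out : A) : Γ)⁻¹ := by
          intro a
          apply hρ
          rw [← hbb _ (hAA a a.2 (i.out : A) (i.out : A).2),
            ← hbb _ (hAA a a.2 (k.out : A) (k.out : A).2)]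
          exact congrArg j (hik a)
        have h2 : (((i.out : A) : Γ)⁻¹ * (k.out : A)) ∈ B := by
          have hmA : (((i.out : A) : Γ)⁻¹ * (k.out : A)) ∈ A :=
            A.mul_mem (A.inv_mem (i.out : A).2) (k.out : A).2
          refine hAZ _ (fun b hb => hAB _ hmA b hb) ?_
          intro a ha
          have h3 := h1 ⟨a⁻¹, A.inv_mem ha⟩
          simp only [inv_inv] at h3
          generalize ((i.out : A) : Γ) = x at h3 ⊢
          generalize ((k.out : A) : Γ) = y at h3 ⊢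
          have h4 : x * a * x⁻¹ = y * a * y⁻¹ := by
            have h5 : a⁻¹ * (x * a * x⁻¹) = a⁻¹ * (y * a * y⁻¹) := by
              calc a⁻¹ * (x * a * x⁻¹) = a⁻¹ * x * a * x⁻¹ := by simp only [mul_assoc]
                _ = a⁻¹ * y * a * y⁻¹ := h3
                _ = _ := by simp only [mul_assoc]
            exact mul_left_cancel h5
          calc x⁻¹ * y * a = x⁻¹ * (y * a * y⁻¹) * y := by group
            _ = x⁻¹ * (x * a * x⁻¹) * y := by rw [h4]
            _ = a * (x⁻¹ * y) := by group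
        have h3 : ((i.out : A) : A ⧸ B.subgroupOf A) = ((k.out : A) : A ⧸ B.subgroupOf A) := by
          rw [QuotientGroup.eq, Subgroup.mem_subgroupOf]
          exact h2
        rw [← QuotientGroup.out_eq' i, ← QuotientGroup.out_eq' k]
        exact h3
    haveI : Fintype (A ⧸ B.subgroupOf A) := Fintype.ofFinite _
    have h6 := hind.fintype_card_le_finrank
    rw [Module.finrank_linearMap, ← he, ← Nat.card_eq_fintype_card, ← hf] at h6
    exact h6
  have hcardA : Nat.card A = f * Nat.card B := by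
    rw [hf, Subgroup.card_eq_card_quotient_mul_card_subgroup (B.subgroupOf A)]
    congr 1
    exact Nat.card_congr (Subgroup.subgroupOfEquivOfLe hBA).toEquiv
  obtain ⟨n, hn1, hn2⟩ := gen_count A B C (fun c hc b hb => (hCmem c).1 hc b hb)
    (fun c _ a ha => hAn.conj_mem a ha c) (Nat.card A) A le_rfl hBA le_rfl
  have hBpos : 0 < Nat.card B := Nat.card_pos
  have hnf : 2 ^ n ≤ f := by
    rw [hcardA] at hn1
    exact Nat.le_of_mul_le_mul_right hn1 hBpos
  have hCA : Nat.card (C ⊓ Subgroup.centralizer (A : Set Γ) : Subgroup Γ) ≤ Nat.card B := by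
    refine Subgroup.card_le_of_le ?_
    intro c hc
    obtain ⟨hc1, hc2⟩ := Subgroup.mem_inf.1 hc
    exact hAZ c ((hCmem c).1 hc1) fun a ha => (Subgroup.mem_centralizer_iff.1 hc2 a ha).symm
  have hmain : Nat.card Γ ≤ q * (q * (f * q) ^ n) := by
    calc Nat.card Γ ≤ q * Nat.card C := hcardC
      _ ≤ q * (Nat.card B * Nat.card A ^ n) :=
          Nat.mul_le_mul_left _ (hn2.trans (Nat.mul_le_mul_right _ hCA))
      _ ≤ q * (q * (f * q) ^ n) := by
          refine Nat.mul_le_mul_left _ (Nat.mul_le_mul hcardB ?_)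
          rw [hcardA]
          exact Nat.pow_le_pow_left (Nat.mul_le_mul_left _ hcardB) n
  rw [hW]
  exact hmain.trans (num_b q e f n hq2 he1 hfe hnf)

end Pool.Agent.Y314.CT3
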