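import Pool.Agent.Y552.CT.Stm4

/-!
# Orders of solvable linear groups: group theory
-/

set_option autoImplicit false

namespace Pool.Agent.Y314.CT3

open Pool.Agent.Y552.CT

universe u v w x

/-- simultaneous eigenvectors with different systems of eigenvalues are independent -/
theorem indep_eig {K : Type u} {M : Type v} {ι : Type w} {α : Type x} [Field K] [AddCommGroup M]
    [Module K M] (T : α → M →ₗ[K] M) (v : ι → M) (β : α → ι → K)
    (hT : ∀ a i, T a (v i) = β a i • v i) (hv : ∀ i, v i ≠ 0)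
    (hne : ∀ i j, (∀ a, β a i = β a j) → i = j) : LinearIndependent K v := by
  classical
  rw [linearIndependent_iff']
  intro s
  induction s using Finset.induction_on with
  | empty =>
    intro c _ i hi
    exact absurd hi (Finset.notMem_empty i)
  | insert j s hj ih =>
    intro c hc
    rw [Finset.sum_insert hj] at hc
    have h1 : ∀ i ∈ s, c i = 0 := by
      intro i hi
      have hij : i ≠ j := fun h => hj (h ▸ hi)
      obtain ⟨a, ha⟩ : ∃ a, β a i ≠ β a j := by
        by_contra hcon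
        push Not at hcon
        exact hij (hne i j hcon)
      have h2 : ∑ k ∈ s, (c k * (β a k - β a j)) • v k = 0 := by
        have h3 := congrArg (T a) hc
        rw [map_add, map_sum, map_zero, map_smul, hT] at h3
        have h4 : ∑ k ∈ s, T a (c k • v k) = ∑ k ∈ s, (c k * β a k) • v k :=
          Finset.sum_congr rfl fun k _ => by rw [map_smul, hT, smul_smul]
        rw [h4] at h3
        have h5 := congrArg (fun y => β a j • y) hc
        simp only [smul_add, smul_zero, Finset.smul_sum, smul_smul] at h5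
        have h6 : ∑ k ∈ s, (c k * (β a k - β a j)) • v k =
            (c j • β a j • v j + ∑ k ∈ s, (c k * β a k) • v k) -
            ((β a j * c j) • v j + ∑ k ∈ s, (β a j * c k) • v k) := by
          rw [smul_smul, mul_comm (c j), add_sub_add_left_eq_sub, ← Finset.sum_sub_distrib]
          refine Finset.sum_congr rfl fun k _ => ?_
          rw [← sub_smul]
          congr 1
          ring
        rw [h6, h3, h5, sub_zero]
      have h7 := ih _ h2 i hi
      rcases mul_eq_zero.1 h7 with h8 | h8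
      · exact h8
      · exact absurd (sub_eq_zero.1 h8) ha
    intro i hi
    rcases Finset.mem_insert.1 hi with rfl | hi
    · rw [Finset.sum_eq_zero (fun k hk => by rw [h1 k hk, zero_smul]), add_zero] at hc
      rcases smul_eq_zero.1 hc with h9 | h9
      · exact h9
      · exact absurd h9 (hv _)
    · exact h1 i hi

section

variable {Γ : Type u} [Group Γ]

/-- counting the conjugates of an element -/
theorem conj_count [Finite Γ] (H : Subgroup Γ) (x : Γ) (A : Subgroup Γ)
    (hA : ∀ h ∈ H, h * x * h⁻¹ ∈ A) :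
    Nat.card H ≤ Nat.card (H ⊓ Subgroup.centralizer {x} : Subgroup Γ) * Nat.card A := by
  classical
  let s : Γ → Γ := fun v => if h : ∃ g ∈ H, g * x * g⁻¹ = v then h.choose else 1
  have hs : ∀ g ∈ H, s (g * x * g⁻¹) ∈ H ∧
      s (g * x * g⁻¹) * x * (s (g * x * g⁻¹))⁻¹ = g * x * g⁻¹ := by
    intro g hg
    have h1 : ∃ g' ∈ H, g' * x * g'⁻¹ = g * x * g⁻¹ := ⟨g, hg, rfl⟩
    have h2 : s (g * x * g⁻¹) = h1.choose := dif_pos h1
    rw [h2]
    exact h1.choose_spec
  let f : H → (H ⊓ Subgroup.centralizer {x} : Subgroup Γ) × A := fun h =>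
    (⟨(s (h * x * (h : Γ)⁻¹))⁻¹ * h, by
      obtain ⟨h1, h2⟩ := hs h h.2
      refine ⟨H.mul_mem (H.inv_mem h1) h.2, ?_⟩
      refine Subgroup.mem_centralizer_singleton_iff.2 ?_
      generalize s (h * x * (h : Γ)⁻¹) = k at h1 h2
      have h3 : x = k⁻¹ * (h * x * (h : Γ)⁻¹) * k := by rw [← h2]; group
      have h4 : k⁻¹ * (h : Γ) * x = x * (k⁻¹ * h) := by
        conv_rhs => rw [h3]
        group
      first | exact h4 | exact h4.symm⟩, ⟨h * x * (h : Γ)⁻¹, hA h h.2⟩)
  have hf : Function.Injective f := by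
    intro a b hab
    have h1 := congrArg (fun p => (p.2 : Γ)) hab
    have h2 := congrArg (fun p => (p.1 : Γ)) hab
    simp only [f] at h1 h2
    rw [h1] at h2
    exact Subtype.ext (mul_left_cancel h2)
  have := Nat.card_le_card_of_injective f hf
  rwa [Nat.card_prod] at this

/-- counting automorphisms by generators -/
theorem gen_count [Finite Γ] (A B C : Subgroup Γ) (hBC : ∀ c ∈ C, ∀ b ∈ B, c * b = b * c)
    (hCA : ∀ c ∈ C, ∀ a ∈ A, c * a * c⁻¹ ∈ A) (N : ℕ) :
    ∀ D : Subgroup Γ, Nat.card D ≤ N → B ≤ D → D ≤ A →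
      ∃ n : ℕ, 2 ^ n * Nat.card B ≤ Nat.card D ∧ Nat.card C ≤
        Nat.card (C ⊓ Subgroup.centralizer (D : Set Γ) : Subgroup Γ) * Nat.card A ^ n := by
  induction N with
  | zero =>
    intro D hD
    exact absurd hD (not_le_of_gt Nat.card_pos)
  | succ N ih =>
    intro D hD hBD hDA
    by_cases hDB : D = B
    · refine ⟨0, by rw [hDB]; simp, ?_⟩
      rw [pow_zero, mul_one, hDB]
      refine Subgroup.card_le_of_le ?_
      intro c hc
      refine ⟨hc, ?_⟩
      refine Subgroup.mem_centralizer_iff.2 ?_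
      intro b hb
      exact (hBC c hc b hb).symm
    · obtain ⟨D', hD'⟩ := (Set.toFinite {D' : Subgroup Γ | B ≤ D' ∧ D' < D}).exists_maximal
        ⟨B, le_rfl, lt_of_le_of_ne hBD (Ne.symm hDB)⟩
      obtain ⟨hBD', hlt⟩ := hD'.prop
      have hcard : Nat.card D' < Nat.card D := by
        refine lt_of_le_of_ne (Subgroup.card_le_of_le hlt.le) fun h => ?_
        exact hlt.ne (Subgroup.eq_of_le_of_card_ge hlt.le h.ge)
      obtain ⟨n, hn1, hn2⟩ := ih D' (by omega) hBD' (hlt.le.trans hDA)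
      obtain ⟨x, hxD, hxD'⟩ := SetLike.exists_of_lt hlt
      have hsup : D' ⊔ Subgroup.zpowers x = D := by
        by_contra hne
        have hle : D' ⊔ Subgroup.zpowers x ≤ D :=
          sup_le hlt.le (by rw [Subgroup.zpowers_le]; exact hxD)
        have h1 := hD'.le_of_ge ⟨hBD'.trans le_sup_left, lt_of_le_of_ne hle hne⟩ le_sup_left
        exact hxD' (h1 ((le_sup_right : Subgroup.zpowers x ≤ _) (Subgroup.mem_zpowers x)))
      have h2 : 2 * Nat.card D' ≤ Nat.card D := by
        obtain ⟨k, hk⟩ := Subgroup.card_dvd_of_le hlt.le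
        have hk2 : 2 ≤ k := by
          by_contra hc
          interval_cases k
          · rw [mul_zero] at hk
            exact absurd hk Nat.card_pos.ne'
          · rw [mul_one] at hk
            omega
        rw [hk, mul_comm]
        exact Nat.mul_le_mul_left _ hk2
      refine ⟨n + 1, ?_, ?_⟩
      · rw [pow_succ, mul_comm (2 ^ n) 2, mul_assoc]
        exact (Nat.mul_le_mul_left 2 hn1).trans h2
      · have h3 := conj_count (C ⊓ Subgroup.centralizer (D' : Set Γ)) x A
          (fun h hh => hCA h hh.1 x (hDA hxD))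
        have h4 : (C ⊓ Subgroup.centralizer (D' : Set Γ)) ⊓ Subgroup.centralizer {x} ≤
            C ⊓ Subgroup.centralizer (D : Set Γ) := by
          rintro c ⟨⟨hc1, hc2⟩, hc3⟩
          refine ⟨hc1, ?_⟩
          have h5 : D ≤ Subgroup.centralizer {c} := by
            rw [← hsup]
            refine sup_le ?_ ?_
            · intro d hd
              rw [Subgroup.mem_centralizer_singleton_iff]
              have := Subgroup.mem_centralizer_iff.1 hc2 d hd
              first | exact this | exact this.symm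
            · rw [Subgroup.zpowers_le, Subgroup.mem_centralizer_singleton_iff]
              have := Subgroup.mem_centralizer_iff.1 hc3 x rfl
              first | exact this | exact this.symm
          refine Subgroup.mem_centralizer_iff.2 ?_
          intro d hd
          have := Subgroup.mem_centralizer_singleton_iff.1 (h5 hd)
          first | exact this | exact this.symm
        have h6 := Subgroup.card_le_of_le h4
        calc Nat.card C ≤ Nat.card (C ⊓ Subgroup.centralizer (D' : Set Γ) : Subgroup Γ) *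
              Nat.card A ^ n := hn2
          _ ≤ (Nat.card (C ⊓ Subgroup.centralizer (D : Set Γ) : Subgroup Γ) * Nat.card A) *
              Nat.card A ^ n :=
              Nat.mul_le_mul_right _ (h3.trans (Nat.mul_le_mul_right _ h6))
          _ = _ := by rw [pow_succ]; ring

/-- the maximal subgroup of class two -/
theorem exists_A [Finite Γ] [Group.IsSolvable Γ] (B : Subgroup Γ) (hBn : B.Normal) (hBc : Comm B)
    (hmax : ∀ B' : Subgroup Γ, B'.Normal → Comm B' → B ≤ B' → B' = B) :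
    ∃ A : Subgroup Γ, A.Normal ∧ B ≤ A ∧ (∀ a ∈ A, ∀ b ∈ B, a * b = b * a) ∧
      (∀ a ∈ A, ∀ b ∈ A, a * b * a⁻¹ * b⁻¹ ∈ B) ∧
      ∀ c, (∀ b ∈ B, c * b = b * c) → (∀ a ∈ A, c * a = a * c) → c ∈ B := by
  have hcn : ∀ N : Subgroup Γ, N.Normal → (Subgroup.centralizer (N : Set Γ)).Normal := by
    intro N hN
    infer_instance
  obtain ⟨A, hA⟩ := (Set.toFinite {A : Subgroup Γ | A.Normal ∧ B ≤ A ∧
      (∀ a ∈ A, ∀ b ∈ B, a * b = b * a) ∧ (∀ a ∈ A, ∀ b ∈ A, a * b * a⁻¹ * b⁻¹ ∈ B)}).exists_maximal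
      ⟨B, hBn, le_rfl, fun a ha b hb => hBc a ha b hb, fun a ha b hb =>
        B.mul_mem (B.mul_mem (B.mul_mem ha hb) (B.inv_mem ha)) (B.inv_mem hb)⟩
  obtain ⟨hAn, hBA, hAB, hAA⟩ := hA.prop
  refine ⟨A, hAn, hBA, hAB, hAA, ?_⟩
  -- the centre of A
  have hZ : ∀ c ∈ A, (∀ a ∈ A, c * a = a * c) → c ∈ B := by
    have hZn : (A ⊓ Subgroup.centralizer (A : Set Γ)).Normal := by
      have := hcn A hAn
      infer_instance
    have h1 := hmax (A ⊓ Subgroup.centralizer (A : Set Γ)) hZn (by
      rintro a ⟨ha1, ha2⟩ b ⟨hb1, hb2⟩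
      exact (Subgroup.mem_centralizer_iff.1 ha2 b hb1).symm) (by
      intro b hb
      refine ⟨hBA hb, ?_⟩
      refine Subgroup.mem_centralizer_iff.2 ?_
      intro a ha
      exact hAB a ha b hb)
    intro c hc1 hc2
    rw [← h1]
    refine ⟨hc1, ?_⟩
    refine Subgroup.mem_centralizer_iff.2 ?_
    intro a ha
    exact (hc2 a ha).symm
  obtain ⟨D, hD⟩ : ∃ D : Subgroup Γ, D = Subgroup.centralizer (B : Set Γ) ⊓
      Subgroup.centralizer (A : Set Γ) := ⟨_, rfl⟩
  have hDn : D.Normal := by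
    rw [hD]
    have := hcn A hAn
    have := hcn B hBn
    infer_instance
  have hDA : ∀ d ∈ D, ∀ a ∈ A, d * a = a * d := by
    intro d hd a ha
    rw [hD] at hd
    exact (Subgroup.mem_centralizer_iff.1 hd.2 a ha).symm
  have hDB : ∀ d ∈ D, ∀ b ∈ B, d * b = b * d := by
    intro d hd b hb
    rw [hD] at hd
    exact (Subgroup.mem_centralizer_iff.1 hd.1 b hb).symm
  have hle : D ≤ A := by
    by_contra hnot
    obtain ⟨n, hn⟩ := (Group.IsSolvable.solvable (G := Γ))
    have hex : ∃ n, D ⊓ derivedSeries Γ n ≤ A := ⟨n, by rw [hn, inf_bot_eq]; exact bot_le⟩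
    classical
    obtain ⟨k, hk1, hk2⟩ : ∃ k, ¬ D ⊓ derivedSeries Γ k ≤ A ∧ D ⊓ derivedSeries Γ (k + 1) ≤ A := by
      have h0 : Nat.find hex ≠ 0 := by
        intro h0
        have := Nat.find_spec hex
        rw [h0, derivedSeries_zero, inf_top_eq] at this
        exact hnot this
      obtain ⟨k, hk⟩ := Nat.exists_eq_succ_of_ne_zero h0
      refine ⟨k, Nat.find_min hex (by omega), ?_⟩
      have := Nat.find_spec hex
      rw [hk] at this
      exact this
    obtain ⟨E, hE⟩ : ∃ E : Subgroup Γ, E = D ⊓ derivedSeries Γ k := ⟨_, rfl⟩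
    rw [← hE] at hk1
    have hEn : E.Normal := by
      rw [hE]
      infer_instance
    have hED : E ≤ D := by rw [hE]; exact inf_le_left
    have hEE : ∀ a ∈ E, ∀ b ∈ E, a * b * a⁻¹ * b⁻¹ ∈ B := by
      intro a ha b hb
      have h1 : a * b * a⁻¹ * b⁻¹ ∈ D := D.mul_mem (D.mul_mem (D.mul_mem (hED ha) (hED hb))
        (D.inv_mem (hED ha))) (D.inv_mem (hED hb))
      have h2 : a * b * a⁻¹ * b⁻¹ ∈ derivedSeries Γ (k + 1) := by
        rw [derivedSeries_succ]
        rw [hE] at ha hb
        exact Subgroup.commutator_mem_commutator ha.2 hb.2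
      have h3 : a * b * a⁻¹ * b⁻¹ ∈ A := hk2 ⟨h1, h2⟩
      exact hZ _ h3 (hDA _ h1)
    have hmem : A ⊔ E ∈ {A : Subgroup Γ | A.Normal ∧ B ≤ A ∧
      (∀ a ∈ A, ∀ b ∈ B, a * b = b * a) ∧ (∀ a ∈ A, ∀ b ∈ A, a * b * a⁻¹ * b⁻¹ ∈ B)} := by
      refine ⟨inferInstance, hBA.trans le_sup_left, ?_, ?_⟩
      · intro a ha b hb
        obtain ⟨a1, ha1, e1, he1, rfl⟩ := Subgroup.mem_sup_of_normal_right.1 ha
        rw [mul_assoc, hDB e1 (hED he1) b hb, ← mul_assoc, hAB a1 ha1 b hb, mul_assoc]
      · intro a ha b hb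
        obtain ⟨a1, ha1, e1, he1, rfl⟩ := Subgroup.mem_sup_of_normal_right.1 ha
        obtain ⟨a2, ha2, e2, he2, rfl⟩ := Subgroup.mem_sup_of_normal_right.1 hb
        have c1 := hDA e1 (hED he1) a2 ha2
        have c2 := hDA e1 (hED he1) a1 ha1
        have c3 := hDA e2 (hED he2) a1 ha1
        have c4 := hDA e2 (hED he2) a2 ha2
        have hcomm : a1 * e1 * (a2 * e2) * (a1 * e1)⁻¹ * (a2 * e2)⁻¹ =
            (a1 * a2 * a1⁻¹ * a2⁻¹) * (e1 * e2 * e1⁻¹ * e2⁻¹) := by
          have d1 : Commute e1 a2 := c1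
          have d2 : Commute e1 a1 := c2
          have d3 : Commute e2 a1 := c3
          have d4 : Commute e2 a2 := c4
          have s1 : a1 * e1 * (a2 * e2) = (a1 * a2) * (e1 * e2) := by
            rw [mul_assoc, ← mul_assoc e1, d1.eq, mul_assoc, ← mul_assoc a1]
          have s2 : (a1 * e1)⁻¹ * (a2 * e2)⁻¹ = (a1⁻¹ * a2⁻¹) * (e1⁻¹ * e2⁻¹) := by
            rw [mul_inv_rev, mul_inv_rev]
            have t1 : e1⁻¹ * a1⁻¹ = a1⁻¹ * e1⁻¹ := d2.inv_inv.eq
            have t2 : e2⁻¹ * a2⁻¹ = a2⁻¹ * e2⁻¹ := d4.inv_inv.eq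
            have t3 : e1⁻¹ * a2⁻¹ = a2⁻¹ * e1⁻¹ := d1.inv_inv.eq
            rw [t1, t2, mul_assoc, ← mul_assoc e1⁻¹, t3, mul_assoc, ← mul_assoc a1⁻¹]
          have s3 : e1 * e2 * (a1⁻¹ * a2⁻¹) = (a1⁻¹ * a2⁻¹) * (e1 * e2) := by
            have u1 : Commute (e1 * e2) a1⁻¹ := (d2.mul_left d3).inv_right
            have u2 : Commute (e1 * e2) a2⁻¹ := (d1.mul_left d4).inv_right
            exact (u1.mul_right u2).eq
          calc a1 * e1 * (a2 * e2) * (a1 * e1)⁻¹ * (a2 * e2)⁻¹
              = (a1 * e1 * (a2 * e2)) * ((a1 * e1)⁻¹ * (a2 * e2)⁻¹) := by rw [mul_assoc]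
            _ = (a1 * a2) * (e1 * e2 * (a1⁻¹ * a2⁻¹)) * (e1⁻¹ * e2⁻¹) := by
                rw [s1, s2]; simp only [mul_assoc]
            _ = (a1 * a2 * a1⁻¹ * a2⁻¹) * (e1 * e2 * e1⁻¹ * e2⁻¹) := by
                rw [s3]; simp only [mul_assoc]
        rw [hcomm]
        exact B.mul_mem (hAA a1 ha1 a2 ha2) (hEE e1 he1 e2 he2)
    exact hk1 ((le_sup_right : E ≤ A ⊔ E).trans (hA.le_of_ge hmem le_sup_left))
  intro c hc1 hc2
  have hcD : c ∈ D := by
    rw [hD]
    refine ⟨?_, ?_⟩
    · refine Subgroup.mem_centralizer_iff.2 ?_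
      intro b hb
      exact (hc1 b hb).symm
    · refine Subgroup.mem_centralizer_iff.2 ?_
      intro b hb
      exact (hc2 b hb).symm
  exact hZ c (hle hcD) hc2

end

end Pool.Agent.Y314.CT3
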